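import Mathlib

/-!
# Wide Aronszajn trees: definitions
-/

set_option autoImplicit false

namespace Pool.Agent.Lib_helper70.WAT

open Set Cardinal Ordinal

/-- `s` is a well-ordered set of the order type `δ`. -/
def HasType {T : Type} [PartialOrder T] (s : Set T) (δ : Ordinal.{0}) : Prop :=
  Nonempty (s ≃o δ.ToType)

/-- A tree: a partial order with a least element in which the predecessors of every element are
well-ordered. -/
structure IsTree (T : Type) [PartialOrder T] : Prop where
  least : ∃ r : T, ∀ t : T, r ≤ t
  wo : ∀ t : T, ∃ α : Ordinal.{0}, HasType (Iio t) α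

/-- A wide `κ`-Aronszajn tree: a tree of cardinality `κ` and height `κ` without a branch of order
type `κ`. -/
structure WideAronszajn (κ : Cardinal.{0}) (T : Type) [PartialOrder T] : Prop where
  tree : IsTree T
  card : #T = κ
  below : ∀ (t : T) (α : Ordinal.{0}), HasType (Iio t) α → α < κ.ord
  height : ∀ α : Ordinal.{0}, α < κ.ord → ∃ t : T, HasType (Iio t) α
  noBranch : ∀ B : Set T, ¬ HasType B κ.ord

/-- The paths of length `δ`: the downward closed branches of order type `δ`. (For a limit `δ` they
are the cofinal branches of the tree of the elements of height less than `δ`.) -/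
def Paths (T : Type) [PartialOrder T] (δ : Ordinal.{0}) : Set (Set T) :=
  {P | IsLowerSet P ∧ HasType P δ}

/-- The maximal branches of length `δ`: the downward closed branches of order type `δ` that have no
element of `T` above them. -/
def MaxBranches (T : Type) [PartialOrder T] (δ : Ordinal.{0}) : Set (Set T) :=
  {P | IsLowerSet P ∧ HasType P δ ∧ ¬ ∃ t : T, ∀ s ∈ P, s < t}

/-- `T` is a maximal wide `κ`-Aronszajn tree: every wide `κ`-Aronszajn tree has an embedding (an
injective strictly increasing map) into `T`. -/
def Maximal (κ : Cardinal.{0}) (T : Type) [PartialOrder T] : Prop :=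
  WideAronszajn κ T ∧ ∀ (S : Type) [PartialOrder S], WideAronszajn κ S →
    ∃ f : S → T, StrictMono f ∧ Function.Injective f

/-- `T` is a weakly maximal wide `κ`-Aronszajn tree: every wide `κ`-Aronszajn tree has a strictly
increasing map into `T`. -/
def WeaklyMaximal (κ : Cardinal.{0}) (T : Type) [PartialOrder T] : Prop :=
  WideAronszajn κ T ∧ ∀ (S : Type) [PartialOrder S], WideAronszajn κ S → ∃ f : S → T, StrictMono f

/-- `C` is closed and unbounded in `κ`: it is unbounded in `κ` and contains every limit ordinal
below `κ` in which it is unbounded. -/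
def Club (κ : Cardinal.{0}) (C : Set Ordinal.{0}) : Prop :=
  (∀ α < κ.ord, ∃ γ ∈ C, α < γ ∧ γ < κ.ord) ∧
    ∀ δ < κ.ord, Order.IsSuccLimit δ → (∀ α < δ, ∃ γ ∈ C, α < γ ∧ γ < δ) → δ ∈ C

/-- `E` is stationary in `κ`: it meets every closed unbounded subset of `κ`. -/
def Stationary (κ : Cardinal.{0}) (E : Set Ordinal.{0}) : Prop :=
  ∀ C : Set Ordinal.{0}, Club κ C → ∃ δ ∈ C, δ < κ.ord ∧ δ ∈ E

end Pool.Agent.Lib_helper70.WAT
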