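import Pool.Agent.Lib_helper70.WAT.Stat

/-!
# Weakly maximal trees: cones
-/

set_option autoImplicit false

namespace Pool.Agent.Lib_helper70.WAT

open Set Cardinal Ordinal

variable {T : Type} [PartialOrder T] {κ : Cardinal.{0}}

theorem WideAronszajn.iio_lt (hT : WideAronszajn κ T) (t : T) : #(Iio t) < κ := by
  obtain ⟨α, hα⟩ := hT.tree.wo t
  rw [hasType_card hα, ← Cardinal.lt_ord]
  exact hT.below t α hα

/-- A chain of a wide tree is small. -/
theorem WideAronszajn.chain_lt (hT : WideAronszajn κ T) {B : Set T}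
    (hB : ∀ x ∈ B, ∀ y ∈ B, x ≤ y ∨ y ≤ x) : #B < κ := by
  obtain ⟨δ, hδ⟩ := hasType_of_chain hT.tree hB
  rw [hasType_card hδ, ← Cardinal.lt_ord]
  exact hT.type_lt hδ

theorem WideAronszajn.exists_mono (hT : WideAronszajn κ T) (i : κ.ord.ToType) :
    ∃ (t : T) (g : Iio i → Iio t), StrictMono g := by
  obtain ⟨t, ⟨e⟩⟩ := hT.height _ (by
    have := Ordinal.typein_lt_type (fun a b : κ.ord.ToType => a < b) i
    rwa [Ordinal.type_toType] at this)
  obtain ⟨e'⟩ := hasType_typein i
  exact ⟨t, fun j => e.symm (e' j), fun j k hjk => e.symm.lt_iff_lt.2 (e'.lt_iff_lt.2 hjk)⟩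

/-- A subset of a wide tree with a least element that receives a weak embedding from a wide tree is
a wide tree. -/
theorem sub_wide (hT : WideAronszajn κ T) {Y : Set T} (hl : ∃ r : Y, ∀ x : Y, r ≤ x)
    {S : Type} [PartialOrder S] (hS : WideAronszajn κ S) (f : S → Y) (hf : StrictMono f) :
    WideAronszajn κ Y := by
  refine criterion hl (InvImage.wf (fun a : Y => (a : T)) hT.tree.wf) ?_ ?_ ?_ ?_ ?_
  · intro x y z hx hy
    exact hT.tree.chain_Iic z.1 (le_of_lt hx) (le_of_lt hy)
  · exact (Cardinal.mk_set_le Y).trans_eq hT.card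
  · intro x
    refine (Cardinal.mk_le_of_injective (f := fun y : Iio x => (⟨y.1.1, y.2⟩ : Iio x.1)) ?_).trans_lt
      (hT.iio_lt x.1)
    intro y z hyz
    exact Subtype.ext (Subtype.ext (congrArg (fun w : Iio x.1 => w.1) hyz))
  · intro i
    obtain ⟨t, g, hg⟩ := hS.exists_mono i
    exact ⟨f t, fun j => ⟨f (g j).1, hf (g j).2⟩, fun j k hjk => hf (hg hjk)⟩
  · intro g hg
    exact hT.no_mono (fun i => (g i).1) fun i j hij => hg hij

section attach

variable {S : Type} [PartialOrder S] {I : Type} {R : I → Type} [∀ i, PartialOrder (R i)]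

/-- The tree `S` with a copy of every tree `R i` attached above each node of `S`. -/
inductive Att (S : Type) (I : Type) (R : I → Type) : Type
  | base : S → Att S I R
  | top : S → (i : I) → R i → Att S I R

/-- The order of `Att`. -/
inductive Att.Le : Att S I R → Att S I R → Prop
  | base (s s' : S) (h : s ≤ s') : Att.Le (.base s) (.base s')
  | mix (s s' : S) (i : I) (x : R i) (h : s ≤ s') : Att.Le (.base s) (.top s' i x)
  | top (s : S) (i : I) (x y : R i) (h : x ≤ y) : Att.Le (.top s i x) (.top s i y)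

instance : PartialOrder (Att S I R) where
  le := Att.Le
  le_refl a := by
    cases a with
    | base s => exact .base s s le_rfl
    | top s i x => exact .top s i x x le_rfl
  le_trans a b c hab hbc := by
    cases hab with
    | base s s' h =>
      cases hbc with
      | base _ s'' h' => exact .base _ _ (h.trans h')
      | mix _ s'' i x h' => exact .mix _ _ _ _ (h.trans h')
    | mix s s' i x h =>
      cases hbc with
      | top _ _ _ y h' => exact .mix _ _ _ _ h
    | top s i x y h =>
      cases hbc with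
      | top _ _ _ z h' => exact .top _ _ _ _ (h.trans h')
  le_antisymm a b hab hba := by
    cases hab with
    | base s s' h =>
      cases hba with
      | base _ _ h' => rw [le_antisymm h h']
    | mix s s' i x h => cases hba
    | top s i x y h =>
      cases hba with
      | top _ _ _ _ h' => rw [le_antisymm h h']

theorem base_le {s s' : S} : (Att.base s : Att S I R) ≤ .base s' ↔ s ≤ s' :=
  ⟨fun h => by cases h; assumption, fun h => .base _ _ h⟩

theorem base_le_top {s s' : S} {i : I} {x : R i} :
    (Att.base s : Att S I R) ≤ .top s' i x ↔ s ≤ s' :=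
  ⟨fun h => by cases h; assumption, fun h => .mix _ _ _ _ h⟩

theorem top_le {s : S} {i : I} {x y : R i} :
    (Att.top s i x : Att S I R) ≤ .top s i y ↔ x ≤ y :=
  ⟨fun h => by cases h; assumption, fun h => .top _ _ _ _ h⟩

theorem top_le' {a : Att S I R} {s : S} {i : I} {x : R i} (h : Att.top s i x ≤ a) :
    ∃ y, a = .top s i y ∧ x ≤ y := by
  cases h with
  | top _ _ _ y h => exact ⟨y, rfl, h⟩

theorem base_lt {s s' : S} : (Att.base s : Att S I R) < .base s' ↔ s < s' := by
  rw [lt_iff_le_not_ge, lt_iff_le_not_ge, base_le, base_le]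

theorem top_lt {s : S} {i : I} {x y : R i} :
    (Att.top s i x : Att S I R) < .top s i y ↔ x < y := by
  rw [lt_iff_le_not_ge, lt_iff_le_not_ge, top_le, top_le]

theorem base_lt_top {s s' : S} {i : I} {x : R i} :
    (Att.base s : Att S I R) < .top s' i x ↔ s ≤ s' := by
  rw [lt_iff_le_not_ge, base_le_top]
  exact ⟨fun h => h.1, fun h => ⟨h, fun h' => by cases h'⟩⟩

theorem att_wf (hS : WellFounded (fun a b : S => a < b))
    (hR : ∀ i, WellFounded (fun a b : R i => a < b)) :
    WellFounded (fun a b : Att S I R => a < b) := by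
  have h1 : ∀ s : S, Acc (fun a b : Att S I R => a < b) (.base s) := by
    intro s
    induction s using hS.induction with
    | _ s ih =>
      refine ⟨_, fun a ha => ?_⟩
      cases a with
      | base s' => exact ih s' (base_lt.1 ha)
      | top s' i x =>
        obtain ⟨y, hy, -⟩ := top_le' ha.le
        cases hy
  refine ⟨fun a => ?_⟩
  cases a with
  | base s => exact h1 s
  | top s i x =>
    induction x using (hR i).induction with
    | _ x ih =>
      refine ⟨_, fun a ha => ?_⟩
      cases a with
      | base s' => exact h1 s'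
      | top s' j y =>
        obtain ⟨z, hz, -⟩ := top_le' ha.le
        cases hz
        exact ih y (top_lt.1 ha)

theorem att_wide (hκ : ℵ₀ ≤ κ) (hS : WideAronszajn κ S) (hR : ∀ i, WideAronszajn κ (R i))
    (hI : #I ≤ κ) : WideAronszajn κ (Att S I R) := by
  classical
  obtain ⟨r, hr⟩ := hS.tree.least
  refine criterion ⟨.base r, ?_⟩ (att_wf hS.tree.wf fun i => (hR i).tree.wf) ?_ ?_ ?_ ?_ ?_
  · intro a
    cases a with
    | base s => exact base_le.2 (hr s)
    | top s i x => exact base_le_top.2 (hr s)
  · intro a b c hac hbc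
    cases c with
    | base s =>
      cases a with
      | top s' i x => obtain ⟨y, hy, -⟩ := top_le' hac.le; cases hy
      | base s' =>
        cases b with
        | top s'' i x => obtain ⟨y, hy, -⟩ := top_le' hbc.le; cases hy
        | base s'' =>
          rcases hS.tree.chain_Iic s (base_le.1 hac.le) (base_le.1 hbc.le) with h | h
          · exact Or.inl (base_le.2 h)
          · exact Or.inr (base_le.2 h)
    | top s i x =>
      cases a with
      | base s' =>
        cases b with
        | base s'' =>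
          rcases hS.tree.chain_Iic s (base_le_top.1 hac.le) (base_le_top.1 hbc.le) with h | h
          · exact Or.inl (base_le.2 h)
          · exact Or.inr (base_le.2 h)
        | top s'' j y =>
          obtain ⟨z, hz, -⟩ := top_le' hbc.le
          cases hz
          exact Or.inl (base_le_top.2 (base_le_top.1 hac.le))
      | top s' j y =>
        obtain ⟨z, hz, -⟩ := top_le' hac.le
        cases hz
        cases b with
        | base s'' => exact Or.inr (base_le_top.2 (base_le_top.1 hbc.le))
        | top s'' k w =>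
          obtain ⟨z, hz, -⟩ := top_le' hbc.le
          cases hz
          rcases (hR i).tree.chain_Iic x (top_le.1 hac.le) (top_le.1 hbc.le) with h | h
          · exact Or.inl (top_le.2 h)
          · exact Or.inr (top_le.2 h)
  · have h1 : Function.Injective (fun a : Att S I R =>
        (match a with
        | .base s => Sum.inl s
        | .top s i x => Sum.inr (s, ⟨i, x⟩) : S ⊕ (S × (Σ i, R i)))) := by
      intro a b hab
      cases a with
      | base s =>
        cases b with
        | base s' => simpa using hab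
        | top s' i x => simp at hab
      | top s i x =>
        cases b with
        | base s' => simp at hab
        | top s' j y =>
          simp only [Sum.inr.injEq, Prod.mk.injEq, Sigma.mk.injEq] at hab
          obtain ⟨rfl, rfl, h⟩ := hab
          rw [eq_of_heq h]
    refine (Cardinal.mk_le_of_injective h1).trans ?_
    rw [Cardinal.mk_sum, Cardinal.lift_id, Cardinal.lift_id, Cardinal.mk_prod, Cardinal.lift_id,
      Cardinal.lift_id, Cardinal.mk_sigma, hS.card]
    refine Cardinal.add_le_of_le hκ le_rfl ?_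
    have h2 : Cardinal.sum (fun i => #(R i)) ≤ κ := by
      have h3 : (fun i => #(R i)) = fun _ => κ := funext fun i => (hR i).card
      rw [h3, Cardinal.sum_const', ]
      exact (mul_le_mul' hI le_rfl).trans (Cardinal.mul_eq_self hκ).le
    exact (mul_le_mul' le_rfl h2).trans (Cardinal.mul_eq_self hκ).le
  · intro a
    cases a with
    | base s =>
      refine (Cardinal.mk_le_mk_of_subset (t := (fun s' : S => (Att.base s' : Att S I R)) '' Iio s)
        fun a ha => ?_).trans_lt (Cardinal.mk_image_le.trans_lt (hS.iio_lt s))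
      cases a with
      | base s' => exact ⟨s', base_lt.1 ha, rfl⟩
      | top s' i x => obtain ⟨y, hy, -⟩ := top_le' (le_of_lt ha); cases hy
    | top s i x =>
      refine (Cardinal.mk_le_mk_of_subset
        (t := (fun s' : S => (Att.base s' : Att S I R)) '' (insert s (Iio s)) ∪
          (fun y : R i => (Att.top s i y : Att S I R)) '' Iio x)
        fun a ha => ?_).trans_lt ((Cardinal.mk_union_le _ _).trans_lt
          (Cardinal.add_lt_of_lt hκ (Cardinal.mk_image_le.trans_lt ?_)
            (Cardinal.mk_image_le.trans_lt ((hR i).iio_lt x))))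
      · cases a with
        | base s' =>
          refine Or.inl ⟨s', ?_, rfl⟩
          rcases (base_lt_top.1 ha).lt_or_eq with h | h
          · exact Or.inr h
          · exact Or.inl h
        | top s' j y =>
          obtain ⟨z, hz, -⟩ := top_le' (le_of_lt ha)
          cases hz
          exact Or.inr ⟨y, top_lt.1 ha, rfl⟩
      · exact Cardinal.mk_insert_le.trans_lt (Cardinal.add_lt_of_lt hκ (hS.iio_lt s)
          (one_lt_aleph0.trans_le hκ))
  · intro i
    obtain ⟨t, g, hg⟩ := hS.exists_mono i
    exact ⟨.base t, fun j => ⟨.base (g j).1, base_lt.2 (g j).2⟩, fun j k hjk => base_lt.2 (hg hjk)⟩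
  · intro g hg
    by_cases h1 : ∃ (j0 : κ.ord.ToType) (s : S) (i : I) (x : R i), g j0 = .top s i x
    · obtain ⟨j0, s, i, x, hx⟩ := h1
      have h2 : ∀ j : Ici j0, ∃ y : R i, g j = .top s i y := by
        intro j
        have h3 : Att.top s i x ≤ g j := hx ▸ hg.monotone j.2
        obtain ⟨y, hy, -⟩ := top_le' h3
        exact ⟨y, hy⟩
      choose y hy using h2
      have hinj : Function.Injective y := by
        intro j k hjk
        have h3 : g j = g k := by rw [hy, hy, hjk]
        exact Subtype.ext (hg.injective h3)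
      have h4 : #(range y) < κ := by
        refine (hR i).chain_lt ?_
        rintro _ ⟨j, rfl⟩ _ ⟨k, rfl⟩
        rcases le_total j k with h | h
        · refine Or.inl (top_le (s := s) (S := S) |>.1 ?_)
          rw [← hy, ← hy]
          exact hg.monotone h
        · refine Or.inr (top_le (s := s) (S := S) |>.1 ?_)
          rw [← hy, ← hy]
          exact hg.monotone h
      rw [Cardinal.mk_range_eq y hinj] at h4
      have h5 : (Set.univ : Set κ.ord.ToType) ⊆ Iio j0 ∪ Ici j0 := by
        intro j _
        rcases lt_or_ge j j0 with h | h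
        · exact Or.inl h
        · exact Or.inr h
      have h6 := Cardinal.mk_le_mk_of_subset h5
      rw [Cardinal.mk_univ, Cardinal.mk_ord_toType] at h6
      exact absurd h6 (not_le.2 ((Cardinal.mk_union_le _ _).trans_lt
        (Cardinal.add_lt_of_lt hκ (Cardinal.mk_Iio_toType_ord_lt j0) h4)))
    · have h2 : ∀ j, ∃ s, g j = .base s := by
        intro j
        cases h3 : g j with
        | base s => exact ⟨s, rfl⟩
        | top s i x => exact absurd ⟨j, s, i, x, h3⟩ h1
      choose s hs using h2
      refine hS.no_mono s fun j k hjk => ?_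
      have h3 := hg hjk
      rw [hs, hs] at h3
      exact base_lt.1 h3

end attach

/-- Maximality for weak embeddings and, if `b` holds, for embeddings. -/
def MaxB (b : Prop) (κ : Cardinal.{0}) (T : Type) [PartialOrder T] : Prop :=
  WideAronszajn κ T ∧ ∀ (S : Type) [PartialOrder S], WideAronszajn κ S →
    ∃ f : S → T, StrictMono f ∧ (b → Function.Injective f)

theorem maximal_iff : Maximal κ T ↔ MaxB True κ T :=
  ⟨fun h => ⟨h.1, fun S _ hS => by
    obtain ⟨f, hf, hf'⟩ := h.2 S hS
    exact ⟨f, hf, fun _ => hf'⟩⟩, fun h => ⟨h.1, fun S _ hS => by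
    obtain ⟨f, hf, hf'⟩ := h.2 S hS
    exact ⟨f, hf, hf' trivial⟩⟩⟩

theorem weaklyMaximal_iff : WeaklyMaximal κ T ↔ MaxB False κ T :=
  ⟨fun h => ⟨h.1, fun S _ hS => by
    obtain ⟨f, hf⟩ := h.2 S hS
    exact ⟨f, hf, fun h => h.elim⟩⟩, fun h => ⟨h.1, fun S _ hS => by
    obtain ⟨f, hf, -⟩ := h.2 S hS
    exact ⟨f, hf⟩⟩⟩

/-- The nodes with a maximal cone. -/
def CoreB (b : Prop) (κ : Cardinal.{0}) (T : Type) [PartialOrder T] : Set T :=
  {t | MaxB b κ (Ici t)}

theorem mem_coreB {b : Prop} (hT : WideAronszajn κ T) (t : T) : t ∈ CoreB b κ T ↔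
    ∀ (S : Type) [PartialOrder S], WideAronszajn κ S →
      ∃ f : S → T, StrictMono f ∧ (b → Function.Injective f) ∧ ∀ s, t ≤ f s := by
  constructor
  · intro h S _ hS
    obtain ⟨f, hf, hf'⟩ := h.2 S hS
    exact ⟨fun s => (f s).1, fun x y hxy => hf hxy,
      fun hb x y hxy => hf' hb (Subtype.ext hxy), fun s => (f s).2⟩
  · intro h
    have h1 : ∀ (S : Type) [PartialOrder S], WideAronszajn κ S →
        ∃ f : S → Ici t, StrictMono f ∧ (b → Function.Injective f) := by
      intro S _ hS
      obtain ⟨f, hf, hf', hf''⟩ := h S hS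
      exact ⟨fun s => ⟨f s, hf'' s⟩, fun x y hxy => hf hxy,
        fun hb x y hxy => hf' hb (congrArg Subtype.val hxy)⟩
    obtain ⟨f, hf, -⟩ := h1 T hT
    exact ⟨sub_wide hT ⟨⟨t, le_rfl⟩, fun x => x.2⟩ hT f hf, h1⟩

/-- The core of a maximal tree is maximal, and so are all its cones. -/
theorem core {b : Prop} (hκ : ℵ₀ ≤ κ) (hT : MaxB b κ T) :
    IsLowerSet (CoreB b κ T) ∧ MaxB b κ (CoreB b κ T) ∧
      ∀ t : CoreB b κ T, MaxB b κ (Ici t) := by
  classical
  have hw : ∀ t : T, t ∉ CoreB b κ T → ∃ (S : Type) (_ : PartialOrder S), WideAronszajn κ S ∧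
      ¬ ∃ f : S → T, StrictMono f ∧ (b → Function.Injective f) ∧ ∀ s, t ≤ f s := by
    intro t ht
    by_contra hcon
    push Not at hcon
    exact ht ((mem_coreB hT.1 t).2 fun S _ hS => hcon S inferInstance hS)
  have hkey : ∀ t ∈ CoreB b κ T, ∀ (S : Type) [PartialOrder S], WideAronszajn κ S →
      ∃ f : S → T, StrictMono f ∧ (b → Function.Injective f) ∧
        ∀ s, t ≤ f s ∧ f s ∈ CoreB b κ T := by
    intro t ht S _ hS
    choose R hR hR1 hR2 using fun i : {t : T // t ∉ CoreB b κ T} => hw i.1 i.2
    obtain ⟨f, hf, hf', hf2⟩ := (mem_coreB hT.1 t).1 ht (Att S {t : T // t ∉ CoreB b κ T} R)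
      (att_wide hκ hS hR1 ((Cardinal.mk_set_le _).trans_eq hT.1.card))
    refine ⟨fun s => f (.base s), fun s s' h => hf (base_lt.2 h), fun hb s s' h => ?_,
      fun s => ⟨hf2 _, ?_⟩⟩
    · have h1 := hf' hb h
      injection h1
    · by_contra hcon
      refine hR2 ⟨f (.base s), hcon⟩ ⟨fun x => f (.top s ⟨f (.base s), hcon⟩ x),
        fun x y h => hf (top_lt.2 h), fun hb x y h => ?_, fun x => (hf (base_lt_top.2 le_rfl)).le⟩
      have h1 := hf' hb h
      injection h1
  obtain ⟨r, hr⟩ := hT.1.tree.least
  have hrW : r ∈ CoreB b κ T := (mem_coreB hT.1 r).2 fun S _ hS => by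
    obtain ⟨f, hf, hf'⟩ := hT.2 S hS
    exact ⟨f, hf, hf', fun s => hr _⟩
  have hlow : IsLowerSet (CoreB b κ T) := by
    intro x y hyx hx
    refine (mem_coreB hT.1 y).2 fun S _ hS => ?_
    obtain ⟨f, hf, hf', h⟩ := (mem_coreB hT.1 x).1 hx S hS
    exact ⟨f, hf, hf', fun s => hyx.trans (h s)⟩
  have h1 : ∀ t : CoreB b κ T, ∀ (S : Type) [PartialOrder S], WideAronszajn κ S →
      ∃ f : S → Ici t, StrictMono f ∧ (b → Function.Injective f) := by
    intro t S _ hS
    obtain ⟨f, hf, hf', h⟩ := hkey t.1 t.2 S hS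
    exact ⟨fun s => ⟨⟨f s, (h s).2⟩, (h s).1⟩, fun s s' hs => hf hs, fun hb s s' hs =>
      hf' hb (congrArg (fun x : Ici t => x.1.1) hs)⟩
  have h2 : ∀ (S : Type) [PartialOrder S], WideAronszajn κ S →
      ∃ f : S → CoreB b κ T, StrictMono f ∧ (b → Function.Injective f) := by
    intro S _ hS
    obtain ⟨f, hf, hf'⟩ := h1 ⟨r, hrW⟩ S hS
    exact ⟨fun s => (f s).1, fun s s' hs => hf hs, fun hb s s' hs => hf' hb (Subtype.ext hs)⟩
  have h3 : WideAronszajn κ (CoreB b κ T) := by
    obtain ⟨f, hf, -⟩ := h2 T hT.1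
    exact sub_wide hT.1 ⟨⟨r, hrW⟩, fun x => hr x.1⟩ hT.1 f hf
  refine ⟨hlow, ⟨h3, h2⟩, fun t => ⟨?_, h1 t⟩⟩
  obtain ⟨f, hf, -⟩ := h1 t T hT.1
  exact sub_wide h3 ⟨⟨t, le_rfl⟩, fun x => x.2⟩ hT.1 f hf

/-- If every wide tree embeds into a member of a small family of wide trees, then some member is
maximal. -/
theorem family {b : Prop} (hκ : ℵ₀ ≤ κ) {I : Type} (hI : #I ≤ κ) (Y : I → Type)
    [∀ i, PartialOrder (Y i)] (hY : ∀ i, WideAronszajn κ (Y i)) (hne : Nonempty I)
    (h : ∀ (S : Type) [PartialOrder S], WideAronszajn κ S →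
      ∃ (i : I) (f : S → Y i), StrictMono f ∧ (b → Function.Injective f)) :
    ∃ i, MaxB b κ (Y i) := by
  classical
  by_contra hcon
  push Not at hcon
  have hw : ∀ i : I, ∃ (S : Type) (_ : PartialOrder S), WideAronszajn κ S ∧
      ¬ ∃ f : S → Y i, StrictMono f ∧ (b → Function.Injective f) := by
    intro i
    by_contra hc
    push Not at hc
    exact hcon i ⟨hY i, fun S _ hS => hc S inferInstance hS⟩
  choose R hR hR1 hR2 using hw
  obtain ⟨i0⟩ := hne
  obtain ⟨i, f, hf, hf'⟩ := h (Att (Y i0) I R) (att_wide hκ (hY i0) hR1 hI)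
  obtain ⟨r, -⟩ := (hY i0).tree.least
  refine hR2 i ⟨fun x => f (.top r i x), fun x y hxy => hf (top_lt.2 hxy), fun hb x y hxy => ?_⟩
  have h1 := hf' hb hxy
  injection h1

end Pool.Agent.Lib_helper70.WAT
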