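import Pool.Agent.Lib_helper70.WAT.Defs

/-!
# A weakly maximal wide Aronszajn tree has more than `κ` paths of one length
-/

set_option autoImplicit false

namespace Pool.Agent.Lib_helper70.WAT

open Set Cardinal Ordinal

variable {T : Type} [PartialOrder T]

theorem IsTree.wf (h : IsTree T) : WellFounded (fun a b : T => a < b) := by
  rw [WellFounded.wellFounded_iff_has_min]
  intro s ⟨t, ht⟩
  by_cases hs : (s ∩ Iio t).Nonempty
  · obtain ⟨α, ⟨e⟩⟩ := h.wo t
    let s' : Set α.ToType := {i | ((e.symm i : Iio t) : T) ∈ s}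
    have hs' : s'.Nonempty := by
      obtain ⟨u, hu, hut⟩ := hs
      exact ⟨e ⟨u, hut⟩, by simpa [s'] using hu⟩
    obtain ⟨i, hi, hmin⟩ := WellFounded.has_min (wellFounded_lt (α := α.ToType)) s' hs'
    refine ⟨(e.symm i : Iio t), hi, fun x hx hxi => ?_⟩
    have hxt : x < t := hxi.trans (e.symm i).2
    have h1 : (⟨x, hxt⟩ : Iio t) < e.symm i := hxi
    have h2 : e ⟨x, hxt⟩ < i := by
      have := e.lt_iff_lt.2 h1
      rwa [e.apply_symm_apply] at this
    exact hmin (e ⟨x, hxt⟩) (by simpa [s'] using hx) h2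
  · exact ⟨t, ht, fun x hx hxt => hs ⟨x, hx, hxt⟩⟩

theorem IsTree.chain_Iio (h : IsTree T) (t : T) : IsChain (· ≤ ·) (Iio t) := by
  intro x hx y hy _
  obtain ⟨α, ⟨e⟩⟩ := h.wo t
  rcases le_total (e ⟨x, hx⟩) (e ⟨y, hy⟩) with h1 | h1
  · exact Or.inl (e.le_iff_le.1 h1)
  · exact Or.inr (e.le_iff_le.1 h1)

theorem IsTree.chain_Iic (h : IsTree T) (t : T) {x y : T} (hx : x ≤ t) (hy : y ≤ t) :
    x ≤ y ∨ y ≤ x := by
  rcases hx.lt_or_eq with hx | rfl
  · rcases hy.lt_or_eq with hy | rfl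
    · rcases eq_or_ne x y with e | e
      · exact Or.inl e.le
      · exact h.chain_Iio t hx hy e
    · exact Or.inl hx.le
  · exact Or.inr hy

theorem hasType_chain {s : Set T} {δ : Ordinal.{0}} (hs : HasType s δ) {x y : T} (hx : x ∈ s)
    (hy : y ∈ s) : x ≤ y ∨ y ≤ x := by
  obtain ⟨e⟩ := hs
  rcases le_total (e ⟨x, hx⟩) (e ⟨y, hy⟩) with h1 | h1
  · exact Or.inl (e.le_iff_le.1 h1)
  · exact Or.inr (e.le_iff_le.1 h1)

/-- A chain has an order type. -/
theorem hasType_of_chain (h : IsTree T) {P : Set T} (hP : ∀ x ∈ P, ∀ y ∈ P, x ≤ y ∨ y ≤ x) :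
    ∃ δ : Ordinal.{0}, HasType P δ := by
  classical
  have hwf : WellFounded (fun a b : P => a < b) := InvImage.wf (fun a : P => (a : T)) h.wf
  have hwo : IsWellOrder P (fun a b : P => a < b) :=
    { trichotomous := fun a b h1 h2 => by
        rcases hP a a.2 b b.2 with h3 | h3
        · rcases h3.lt_or_eq with h4 | h4
          · exact absurd h4 h1
          · exact Subtype.ext h4
        · rcases h3.lt_or_eq with h4 | h4
          · exact absurd h4 h2
          · exact Subtype.ext h4.symm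
      wf := hwf }
  refine ⟨Ordinal.type (fun a b : P => a < b), ?_⟩
  have h1 : Ordinal.type (fun a b : P => a < b) =
      Ordinal.type (fun a b : (Ordinal.type (fun a b : P => a < b)).ToType => a < b) :=
    (Ordinal.type_toType _).symm
  obtain ⟨e⟩ := Ordinal.type_eq.1 h1
  exact ⟨OrderIso.ofRelIsoLT e⟩

theorem hasType_unique {X : Type} [PartialOrder X] {s : Set X} {α β : Ordinal.{0}}
    (h1 : HasType s α) (h2 : HasType s β) : α = β := by
  obtain ⟨e⟩ := h1
  obtain ⟨e'⟩ := h2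
  have h3 : Ordinal.type (fun a b : α.ToType => a < b) =
      Ordinal.type (fun a b : β.ToType => a < b) :=
    Ordinal.type_eq.2 ⟨(e.symm.trans e').toRelIsoLT⟩
  rwa [Ordinal.type_toType, Ordinal.type_toType] at h3

theorem WideAronszajn.no_mono {κ : Cardinal.{0}} (h : WideAronszajn κ T)
    (f : κ.ord.ToType → T) : ¬ StrictMono f := fun hf =>
  h.noBranch (range f) ⟨(StrictMono.orderIso f hf).symm⟩

theorem WideAronszajn.type_lt {κ : Cardinal.{0}} (h : WideAronszajn κ T) {P : Set T}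
    {δ : Ordinal.{0}} (hP : HasType P δ) : δ < κ.ord := by
  by_contra hcon
  rw [not_lt] at hcon
  obtain ⟨e⟩ := hP
  have h1 : Ordinal.type (fun a b : κ.ord.ToType => a < b) ≤
      Ordinal.type (fun a b : δ.ToType => a < b) := by
    rwa [Ordinal.type_toType, Ordinal.type_toType]
  obtain ⟨g⟩ := Ordinal.type_le_iff'.1 h1
  refine h.no_mono (fun i => (e.symm (g i) : P)) fun i j hij => ?_
  exact e.symm.lt_iff_lt.2 (g.map_rel_iff.2 hij)

/-- The tree of all paths, ordered by end-extension. -/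
def Sig (T : Type) [PartialOrder T] : Type :=
  {P : Set T // IsLowerSet P ∧ ∃ δ : Ordinal.{0}, HasType P δ}

noncomputable instance : PartialOrder (Sig T) := Subtype.partialOrder _

theorem iio_type (h : IsTree T) (P : Sig T) {δ : Ordinal.{0}} (hP : HasType P.1 δ) :
    HasType (Iio P) δ := by
  have hP0 := hP
  obtain ⟨e⟩ := hP
  have hlow : ∀ i : δ.ToType, IsLowerSet (Iio ((e.symm i : P.1) : T)) := fun i => isLowerSet_Iio _
  let ψ : δ.ToType → Iio P := fun i => ⟨⟨Iio ((e.symm i : P.1) : T), isLowerSet_Iio _, h.wo _⟩, by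
    have h0 : Iio ((e.symm i : P.1) : T) ⊆ P.1 := fun x hx =>
      P.2.1 (le_of_lt hx) (e.symm i).2
    refine lt_of_le_of_ne h0 fun he => ?_
    have h1 : ((e.symm i : P.1) : T) ∈ P.1 := (e.symm i).2
    exact lt_irrefl _ ((Set.ext_iff.1 he _).2 h1 : ((e.symm i : P.1) : T) ∈ Iio _)⟩
  have hmono : StrictMono ψ := by
    intro i j hij
    have h1 : ((e.symm i : P.1) : T) < ((e.symm j : P.1) : T) := e.symm.lt_iff_lt.2 hij
    refine lt_of_le_of_ne (fun x hx => lt_trans hx h1) fun he => ?_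
    have h2 : ((e.symm i : P.1) : T) ∈ Iio ((e.symm j : P.1) : T) := h1
    have h3 : Iio ((e.symm i : P.1) : T) = Iio ((e.symm j : P.1) : T) :=
      congrArg (fun Q : Iio P => Q.1.1) he
    rw [← h3] at h2
    exact lt_irrefl _ h2
  have hsurj : Function.Surjective ψ := by
    rintro ⟨Q, hQ⟩
    have hQP : Q.1 ⊆ P.1 := hQ.le
    have hne : (P.1 \ Q.1).Nonempty := by
      by_contra hcon
      rw [not_nonempty_iff_eq_empty, sdiff_eq_empty] at hcon
      exact hQ.ne (Subtype.ext (subset_antisymm hQP hcon))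
    obtain ⟨p, ⟨hpP, hpQ⟩, hmin⟩ := WellFounded.has_min h.wf _ hne
    refine ⟨e ⟨p, hpP⟩, ?_⟩
    refine Subtype.ext (Subtype.ext ?_)
    show Iio ((e.symm (e ⟨p, hpP⟩) : P.1) : T) = Q.1
    rw [e.symm_apply_apply]
    ext x
    constructor
    · intro hx
      by_contra hxQ
      exact hmin x ⟨P.2.1 (le_of_lt hx) hpP, hxQ⟩ hx
    · intro hx
      rcases hasType_chain hP0 (hQP hx) hpP with h1 | h1
      · refine lt_of_le_of_ne h1 fun he => hpQ ?_
        have h2 := hx
        rw [show x = p from he] at h2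
        exact h2
      · exact absurd (Q.2.1 h1 hx) hpQ
  exact ⟨(StrictMono.orderIsoOfSurjective ψ hmono hsurj).symm⟩

theorem sig_wide {κ : Cardinal.{0}} (hκ : ℵ₀ ≤ κ) (hT : WideAronszajn κ T)
    (hc : #(Sig T) ≤ κ) : WideAronszajn κ (Sig T) := by
  have hI : NoMaxOrder κ.ord.ToType := Cardinal.noMaxOrder hκ
  refine ⟨⟨?_, fun P => ?_⟩, le_antisymm hc ?_, fun P α hα => ?_, fun α hα => ?_, fun B hB => ?_⟩
  · obtain ⟨δ, hδ⟩ := hasType_of_chain (P := (∅ : Set T)) hT.tree (by simp)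
    exact ⟨⟨∅, isLowerSet_empty, δ, hδ⟩, fun P => empty_subset P.1⟩
  · obtain ⟨δ, hδ⟩ := P.2.2
    exact ⟨δ, iio_type hT.tree P hδ⟩
  · have h1 : ∀ i : κ.ord.ToType, ∃ t : T, HasType (Iio t)
        (Ordinal.typein (fun a b : κ.ord.ToType => a < b) i) := fun i =>
      hT.height _ (by
        have := Ordinal.typein_lt_type (fun a b : κ.ord.ToType => a < b) i
        rwa [Ordinal.type_toType] at this)
    choose t ht using h1
    have h2 : Function.Injective (fun i : κ.ord.ToType =>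
        (⟨Iio (t i), isLowerSet_Iio _, _, ht i⟩ : Sig T)) := by
      intro i j hij
      have h3 : Iio (t i) = Iio (t j) := congrArg Subtype.val hij
      have h4 := ht i
      rw [h3] at h4
      exact Ordinal.typein_injective (fun a b : κ.ord.ToType => a < b)
        (hasType_unique h4 (ht j))
    have h5 := Cardinal.mk_le_of_injective h2
    rwa [Cardinal.mk_ord_toType] at h5
  · obtain ⟨δ, hδ⟩ := P.2.2
    rw [hasType_unique hα (iio_type hT.tree P hδ)]
    exact hT.type_lt hδ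
  · obtain ⟨t, ht⟩ := hT.height α hα
    exact ⟨⟨Iio t, isLowerSet_Iio _, α, ht⟩, iio_type hT.tree _ ht⟩
  · obtain ⟨e⟩ := hB
    have h1 : ∀ i : κ.ord.ToType, ∃ j, i < j ∧ ∀ k, i < k → j ≤ k := by
      intro i
      obtain ⟨j, hj, hmin⟩ := WellFounded.has_min (wellFounded_lt (α := κ.ord.ToType)) (Ioi i)
        (exists_gt i)
      exact ⟨j, hj, fun k hk => not_lt.1 (hmin k hk)⟩
    choose s hs hmin using h1
    have h2 : ∀ i : κ.ord.ToType, ∃ p : T, p ∈ ((e.symm (s i) : B) : Sig T).1 ∧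
        p ∉ ((e.symm i : B) : Sig T).1 := by
      intro i
      have h3 : ((e.symm i : B) : Sig T) < ((e.symm (s i) : B) : Sig T) :=
        e.symm.lt_iff_lt.2 (hs i)
      by_contra hcon
      push Not at hcon
      exact h3.not_ge hcon
    choose p hp hp' using h2
    refine hT.no_mono p fun i j hij => ?_
    have h3 : ((e.symm (s i) : B) : Sig T) ≤ ((e.symm j : B) : Sig T) :=
      e.symm.le_iff_le.2 (hmin i j hij)
    have h4 : ((e.symm j : B) : Sig T) ≤ ((e.symm (s j) : B) : Sig T) :=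
      e.symm.le_iff_le.2 (hs j).le
    have h5 : p i ∈ ((e.symm j : B) : Sig T).1 := h3 (hp i)
    obtain ⟨δ, hδ⟩ := ((e.symm (s j) : B) : Sig T).2.2
    rcases hasType_chain hδ (h4 h5) (hp j) with h6 | h6
    · exact lt_of_le_of_ne h6 fun he => hp' j (he ▸ h5)
    · exact absurd (((e.symm j : B) : Sig T).2.1 h6 h5) (hp' j)

/-- Kurepa's recursion. -/
theorem exists_mono (h : IsTree T) (f : Sig T → T) (hf : StrictMono f) (I : Type) [LinearOrder I]
    [WellFoundedLT I] : ∃ t : I → T, StrictMono t := by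
  classical
  obtain ⟨d, -⟩ := h.least
  let t : I → T := WellFounded.fix (wellFounded_lt (α := I)) (fun i g =>
    if hP : IsLowerSet {s : T | ∃ (j : I) (hj : j < i), s ≤ g j hj} ∧
      ∃ δ : Ordinal.{0}, HasType {s : T | ∃ (j : I) (hj : j < i), s ≤ g j hj} δ then
    f ⟨_, hP⟩ else d)
  have ht : ∀ i, t i = if hP : IsLowerSet {s : T | ∃ (j : I) (_ : j < i), s ≤ t j} ∧
      ∃ δ : Ordinal.{0}, HasType {s : T | ∃ (j : I) (_ : j < i), s ≤ t j} δ then
    f ⟨_, hP⟩ else d := fun i => WellFounded.fix_eq _ _ i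
  have key : ∀ i, (∃ hP : IsLowerSet {s : T | ∃ (j : I) (_ : j < i), s ≤ t j} ∧
      ∃ δ : Ordinal.{0}, HasType {s : T | ∃ (j : I) (_ : j < i), s ≤ t j} δ,
      t i = f ⟨_, hP⟩) ∧ ∀ j < i, t j < t i := by
    intro i
    induction i using WellFoundedLT.induction with
    | ind i ih =>
      have hmono : ∀ j k, j < k → k < i → t j < t k := fun j k hjk hk => (ih k hk).2 j hjk
      have hlow : IsLowerSet {s : T | ∃ (j : I) (_ : j < i), s ≤ t j} := by
        rintro a b hba ⟨j, hj, hs⟩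
        exact ⟨j, hj, hba.trans hs⟩
      have hP : IsLowerSet {s : T | ∃ (j : I) (_ : j < i), s ≤ t j} ∧
          ∃ δ : Ordinal.{0}, HasType {s : T | ∃ (j : I) (_ : j < i), s ≤ t j} δ := by
        refine ⟨hlow, hasType_of_chain h ?_⟩
        rintro x ⟨j, hj, hx⟩ y ⟨k, hk, hy⟩
        rcases lt_trichotomy j k with hjk | hjk | hjk
        · exact h.chain_Iic (t k) (hx.trans (hmono j k hjk hk).le) hy
        · subst hjk
          exact h.chain_Iic (t j) hx hy
        · exact h.chain_Iic (t j) hx (hy.trans (hmono k j hjk hj).le)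
      have hti : t i = f ⟨_, hP⟩ := by rw [ht i, dif_pos hP]
      refine ⟨⟨hP, hti⟩, fun j hj => ?_⟩
      obtain ⟨⟨hPj, htj⟩, hj2⟩ := ih j hj
      rw [hti]
      conv_lhs => rw [htj]
      refine hf (lt_of_le_of_ne ?_ fun he => ?_)
      · rintro s ⟨k, hk, hs⟩
        exact ⟨k, hk.trans hj, hs⟩
      · have h1 : t j ∈ {s : T | ∃ (k : I) (_ : k < i), s ≤ t k} := ⟨j, hj, le_rfl⟩
        have h2 : {s : T | ∃ (k : I) (_ : k < j), s ≤ t k} =
            {s : T | ∃ (k : I) (_ : k < i), s ≤ t k} := congrArg Subtype.val he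
        rw [← h2] at h1
        obtain ⟨k, hk, hs⟩ := h1
        exact absurd (hj2 k hk) (not_lt_of_ge hs)
  exact ⟨t, fun i j hij => (key j).2 i hij⟩

theorem lt_sig {κ : Cardinal.{0}} (hκ : ℵ₀ ≤ κ) (hT : WeaklyMaximal κ T) : κ < #(Sig T) := by
  by_contra hcon
  obtain ⟨f, hf⟩ := hT.2 (Sig T) (sig_wide hκ hT.1 (not_lt.1 hcon))
  obtain ⟨t, ht⟩ := exists_mono hT.1.tree f hf κ.ord.ToType
  exact hT.1.no_mono t ht

/-- Paths without limit length are few. -/
theorem paths_succ (h : IsTree T) {δ : Ordinal.{0}} (hδ : ¬ Order.IsSuccLimit δ)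
    (hT : ℵ₀ ≤ #T) : #(Paths T δ) ≤ #T := by
  classical
  by_cases h0 : δ = 0
  · subst h0
    have h1 : (Paths T 0).Subsingleton := by
      rintro P ⟨-, ⟨e⟩⟩ Q ⟨-, ⟨e'⟩⟩
      have hP : P = ∅ := by
        by_contra hne
        obtain ⟨x, hx⟩ := nonempty_iff_ne_empty.2 hne
        exact (isEmpty_iff.1 (inferInstance : IsEmpty (0 : Ordinal.{0}).ToType)) (e ⟨x, hx⟩)
      have hQ : Q = ∅ := by
        by_contra hne
        obtain ⟨x, hx⟩ := nonempty_iff_ne_empty.2 hne
        exact (isEmpty_iff.1 (inferInstance : IsEmpty (0 : Ordinal.{0}).ToType)) (e' ⟨x, hx⟩)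
      rw [hP, hQ]
    have h2 : #(Paths T 0) ≤ 1 := Cardinal.mk_le_one_iff_set_subsingleton.2 h1
    exact h2.trans (one_le_aleph0.trans hT)
  · have hmax : ∃ m : δ.ToType, ∀ x, x ≤ m := by
      have hpre : ¬ Order.IsSuccPrelimit δ := fun hp => hδ ⟨by
        rw [isMin_iff_eq_bot]; exact h0, hp⟩
      rw [Order.not_isSuccPrelimit_iff_mem_range_succ] at hpre
      obtain ⟨γ, hγ⟩ := hpre
      have hγδ : γ < Ordinal.type (fun a b : δ.ToType => a < b) := by
        rw [Ordinal.type_toType, ← hγ]; exact Order.lt_succ γ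
      refine ⟨Ordinal.enum (fun a b : δ.ToType => a < b) ⟨γ, hγδ⟩, fun x => ?_⟩
      rw [← not_lt, ← Ordinal.typein_lt_typein (fun a b : δ.ToType => a < b), not_lt, Ordinal.typein_enum]
      have h1 := Ordinal.typein_lt_type (fun a b : δ.ToType => a < b) x
      rw [Ordinal.type_toType] at h1
      exact Order.lt_succ_iff.1 (h1.trans_eq hγ.symm)
    obtain ⟨m, hm⟩ := hmax
    have h1 : ∀ P : Paths T δ, ∃ p : T, P.1 = Iic p := by
      rintro ⟨P, hlow, ⟨e⟩⟩
      refine ⟨(e.symm m : P), subset_antisymm (fun x hx => ?_) (fun x hx => hlow hx (e.symm m).2)⟩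
      have h2 : e ⟨x, hx⟩ ≤ m := hm _
      have h3 : (⟨x, hx⟩ : P) ≤ e.symm m := by
        rw [← e.le_iff_le, e.apply_symm_apply]
        exact h2
      exact h3
    choose p hp using h1
    refine Cardinal.mk_le_of_injective (f := p) fun P Q hPQ => Subtype.ext ?_
    rw [hp P, hp Q, hPQ]

/-- More than `κ` paths of one limit length. -/
theorem exists_length {κ : Cardinal.{0}} (hκ : ℵ₀ ≤ κ) (hT : WeaklyMaximal κ T) :
    ∃ δ : Ordinal.{0}, Order.IsSuccLimit δ ∧ δ < κ.ord ∧ κ < #(Paths T δ) := by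
  classical
  by_contra hcon
  push Not at hcon
  have h1 : ∀ δ : Ordinal.{0}, δ < κ.ord → #(Paths T δ) ≤ κ := by
    intro δ hδ
    by_cases hl : Order.IsSuccLimit δ
    · exact hcon δ hl hδ
    · have := paths_succ hT.1.tree hl (by rw [hT.1.card]; exact hκ)
      rwa [hT.1.card] at this
  have h2 : #(Sig T) ≤ κ := by
    let U : Set (Set T) := ⋃ i : κ.ord.ToType,
      Paths T (Ordinal.typein (fun a b : κ.ord.ToType => a < b) i)
    have hU : ∀ P : Sig T, P.1 ∈ U := by
      rintro ⟨P, hlow, δ, hδ⟩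
      have h3 : δ < Ordinal.type (fun a b : κ.ord.ToType => a < b) := by
        rw [Ordinal.type_toType]
        exact hT.1.type_lt hδ
      refine mem_iUnion.2 ⟨Ordinal.enum (fun a b : κ.ord.ToType => a < b) ⟨δ, h3⟩, hlow, ?_⟩
      rw [Ordinal.typein_enum]
      exact hδ
    have hg : Function.Injective (fun P : Sig T => (⟨P.1, hU P⟩ : U)) := fun P Q h =>
      Subtype.ext (congrArg (fun x : U => x.1) h)
    refine (Cardinal.mk_le_of_injective hg).trans ((Cardinal.mk_iUnion_le_sum_mk).trans ?_)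
    refine (Cardinal.sum_le_mk_mul_iSup _).trans ?_
    rw [Cardinal.mk_ord_toType]
    refine (mul_le_mul' le_rfl (ciSup_le' fun i => h1 _ ?_)).trans (Cardinal.mul_eq_self hκ).le
    have := Ordinal.typein_lt_type (fun a b : κ.ord.ToType => a < b) i
    rwa [Ordinal.type_toType] at this
  exact absurd h2 (not_le.2 (lt_sig hκ hT))

/-- The number of paths of length `δ`. -/
theorem paths_le {δ : Ordinal.{0}} : #(Paths T δ) ≤ #T ^ δ.card := by
  classical
  have h1 : ∀ P : Paths T δ, ∃ f : δ.ToType → T, range f = P.1 := by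
    rintro ⟨P, hlow, ⟨e⟩⟩
    refine ⟨fun i => (e.symm i : P), ?_⟩
    ext x
    constructor
    · rintro ⟨i, rfl⟩
      exact (e.symm i).2
    · intro hx
      exact ⟨e ⟨x, hx⟩, by simp⟩
  choose f hf using h1
  have h2 : Function.Injective f := fun P Q h => Subtype.ext (by rw [← hf P, ← hf Q, h])
  have h3 := Cardinal.mk_le_of_injective h2
  rwa [← Cardinal.power_def, Cardinal.mk_toType] at h3

/-- At a successor cardinal. -/
theorem two_power {μ : Cardinal.{0}} (hμ : ℵ₀ ≤ μ) (hT : WeaklyMaximal (Order.succ μ) T) :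
    Order.succ μ < 2 ^ μ := by
  obtain ⟨δ, -, hδ, hlt⟩ := exists_length (hμ.trans (Order.le_succ μ)) hT
  have h1 : δ.card ≤ μ := by
    rw [← Order.lt_succ_iff]
    exact Cardinal.lt_ord.1 hδ
  refine hlt.trans_le (paths_le.trans ?_)
  rw [hT.1.card]
  calc (Order.succ μ) ^ δ.card ≤ (2 ^ μ) ^ δ.card :=
        Cardinal.power_le_power_right (Order.succ_le_of_lt (Cardinal.cantor μ))
    _ = 2 ^ (μ * δ.card) := by rw [Cardinal.power_mul]
    _ ≤ 2 ^ μ := Cardinal.power_le_power_left two_ne_zero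
        ((mul_le_mul' le_rfl h1).trans (Cardinal.mul_eq_self hμ).le)

end Pool.Agent.Lib_helper70.WAT
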