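import Pool.Agent.Lib_helper70.WAT.Main

/-!
# Stationarily many levels with more than `κ` paths
-/

set_option autoImplicit false

namespace Pool.Agent.Lib_helper70.WAT

open Set Cardinal Ordinal

theorem hasType_typein {X : Type} [LinearOrder X] [WellFoundedLT X] (i : X) :
    HasType (Iio i) (Ordinal.typein (fun a b : X => a < b) i) := by
  have h1 : Ordinal.type (Subrel (fun a b : X => a < b) (fun a => a < i)) =
      Ordinal.type (fun a b : (Ordinal.typein (fun a b : X => a < b) i).ToType => a < b) := by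
    rw [Ordinal.type_toType]
    exact Ordinal.type_subrel _ i
  obtain ⟨e⟩ := Ordinal.type_eq.1 h1
  exact ⟨OrderIso.ofRelIsoLT e⟩

theorem hasType_le {X Y : Type} [PartialOrder X] [PartialOrder Y] {s : Set X} {s' : Set Y}
    {α β : Ordinal.{0}} (h1 : HasType s α) (h2 : HasType s' β) (g : s → s')
    (hg : StrictMono g) : α ≤ β := by
  obtain ⟨e⟩ := h1
  obtain ⟨e'⟩ := h2
  have h3 : Ordinal.type (fun a b : α.ToType => a < b) ≤
      Ordinal.type (fun a b : β.ToType => a < b) := by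
    have hm : StrictMono (fun i : α.ToType => e' (g (e.symm i))) := fun i j hij =>
      e'.lt_iff_lt.2 (hg (e.symm.lt_iff_lt.2 hij))
    exact Ordinal.type_le_iff'.2 ⟨(OrderEmbedding.ofStrictMono _ hm).ltEmbedding⟩
  rwa [Ordinal.type_toType, Ordinal.type_toType] at h3

theorem exists_height {X : Type} [PartialOrder X] {P : Set X} (hP : IsLowerSet P)
    {δ α : Ordinal.{0}} (hδ : HasType P δ) (hα : α < δ) : ∃ s ∈ P, HasType (Iio s) α := by
  obtain ⟨e⟩ := hδ
  have h1 : α < Ordinal.type (fun a b : δ.ToType => a < b) := by rwa [Ordinal.type_toType]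
  obtain ⟨m, hm⟩ : ∃ m : δ.ToType, Ordinal.typein (fun a b : δ.ToType => a < b) m = α :=
    ⟨Ordinal.enum (fun a b : δ.ToType => a < b) ⟨α, h1⟩, Ordinal.typein_enum _ _⟩
  have h2 := hasType_typein m
  rw [hm] at h2
  obtain ⟨e2⟩ := h2
  refine ⟨(e.symm m : P), (e.symm m).2, ⟨OrderIso.trans ?_ e2⟩⟩
  exact
  { toFun := fun x => ⟨e ⟨x.1, hP (le_of_lt x.2) (e.symm m).2⟩, by
      have h3 : (⟨x.1, hP (le_of_lt x.2) (e.symm m).2⟩ : P) < e.symm m := x.2
      have h4 := e.lt_iff_lt.2 h3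
      rwa [e.apply_symm_apply] at h4⟩
    invFun := fun y => ⟨(e.symm y.1 : P), e.symm.lt_iff_lt.2 y.2⟩
    left_inv := fun x => by simp
    right_inv := fun y => by simp
    map_rel_iff' := fun {x y} => e.le_iff_le }

theorem height_lt {X : Type} [PartialOrder X] {P : Set X} (hP : IsLowerSet P)
    {δ α : Ordinal.{0}} (hδ : HasType P δ) {s : X} (hs : s ∈ P) (hα : HasType (Iio s) α) :
    α < δ := by
  obtain ⟨e⟩ := hδ
  have h1 := hasType_typein (e ⟨s, hs⟩)
  have h2 := Ordinal.typein_lt_type (fun a b : δ.ToType => a < b) (e ⟨s, hs⟩)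
  rw [Ordinal.type_toType] at h2
  refine lt_of_le_of_lt (hasType_le hα h1
    (fun x => ⟨e ⟨x.1, hP (le_of_lt x.2) hs⟩, e.lt_iff_lt.2 x.2⟩) ?_) h2
  intro x y hxy
  exact e.lt_iff_lt.2 hxy

theorem hasType_of_wf {X : Type} [PartialOrder X] (hw : WellFounded (fun a b : X => a < b))
    {P : Set X} (hP : ∀ x ∈ P, ∀ y ∈ P, x ≤ y ∨ y ≤ x) : ∃ δ : Ordinal.{0}, HasType P δ := by
  classical
  have hwf : WellFounded (fun a b : P => a < b) := InvImage.wf (fun a : P => (a : X)) hw
  have hwo : IsWellOrder P (fun a b : P => a < b) :=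
    { trichotomous := fun a b h1 h2 => by
        rcases hP a a.2 b b.2 with h3 | h3
        · rcases h3.lt_or_eq with h4 | h4
          · exact absurd h4 h1
          · exact Subtype.ext h4
        · rcases h3.lt_or_eq with h4 | h4
          · exact absurd h4 h2
          · exact Subtype.ext h4.symm
      wf := hwf }
  refine ⟨Ordinal.type (fun a b : P => a < b), ?_⟩
  have h1 : Ordinal.type (fun a b : P => a < b) =
      Ordinal.type (fun a b : (Ordinal.type (fun a b : P => a < b)).ToType => a < b) :=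
    (Ordinal.type_toType _).symm
  obtain ⟨e⟩ := Ordinal.type_eq.1 h1
  exact ⟨OrderIso.ofRelIsoLT e⟩

theorem hasType_card {X : Type} [PartialOrder X] {s : Set X} {α : Ordinal.{0}}
    (h : HasType s α) : #s = α.card := by
  obtain ⟨e⟩ := h
  rw [Cardinal.mk_congr e.toEquiv, Cardinal.mk_toType]

theorem criterion {κ : Cardinal.{0}} {X : Type} [PartialOrder X]
    (hl : ∃ r : X, ∀ x, r ≤ x) (hwf : WellFounded (fun a b : X => a < b))
    (hch : ∀ x y z : X, x < z → y < z → x ≤ y ∨ y ≤ x)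
    (hcard : #X ≤ κ) (hbelow : ∀ x : X, #(Iio x) < κ)
    (hheight : ∀ i : κ.ord.ToType, ∃ x : X, ∃ g : Iio i → Iio x, StrictMono g)
    (hno : ∀ g : κ.ord.ToType → X, ¬ StrictMono g) : WideAronszajn κ X := by
  have hwo : ∀ t : X, ∃ α : Ordinal.{0}, HasType (Iio t) α := fun t =>
    hasType_of_wf hwf fun x hx y hy => hch x y t hx hy
  have hht : ∀ α : Ordinal.{0}, α < κ.ord → ∃ t : X, HasType (Iio t) α := by
    intro α hα
    have h1 : α < Ordinal.type (fun a b : κ.ord.ToType => a < b) := by rwa [Ordinal.type_toType]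
    obtain ⟨i, hi⟩ : ∃ i : κ.ord.ToType, Ordinal.typein (fun a b : κ.ord.ToType => a < b) i = α :=
      ⟨Ordinal.enum (fun a b : κ.ord.ToType => a < b) ⟨α, h1⟩, Ordinal.typein_enum _ _⟩
    obtain ⟨x, g, hg⟩ := hheight i
    obtain ⟨β, hβ⟩ := hwo x
    have h2 := hasType_typein i
    rw [hi] at h2
    rcases (hasType_le h2 hβ g hg).lt_or_eq with h3 | h3
    · obtain ⟨s, -, hs⟩ := exists_height (isLowerSet_Iio x) hβ h3
      exact ⟨s, hs⟩
    · exact ⟨x, h3 ▸ hβ⟩
  refine ⟨⟨hl, hwo⟩, le_antisymm hcard ?_, fun x α hα => ?_, hht, fun B hB => ?_⟩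
  · have h1 : ∀ i : κ.ord.ToType, ∃ t : X, HasType (Iio t)
        (Ordinal.typein (fun a b : κ.ord.ToType => a < b) i) := fun i =>
      hht _ (by
        have := Ordinal.typein_lt_type (fun a b : κ.ord.ToType => a < b) i
        rwa [Ordinal.type_toType] at this)
    choose t ht using h1
    have h2 : Function.Injective t := by
      intro i j hij
      have h4 := ht i
      rw [hij] at h4
      exact Ordinal.typein_injective (fun a b : κ.ord.ToType => a < b)
        (hasType_unique h4 (ht j))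
    have h5 := Cardinal.mk_le_of_injective h2
    rwa [Cardinal.mk_ord_toType] at h5
  · rw [Cardinal.lt_ord, ← hasType_card hα]
    exact hbelow x
  · obtain ⟨e⟩ := hB
    exact hno (fun i => (e.symm i : B)) fun i j hij => e.symm.lt_iff_lt.2 hij

theorem sig_tree {T : Type} [PartialOrder T] (h : IsTree T) : IsTree (Sig T) := by
  refine ⟨?_, fun P => ?_⟩
  · obtain ⟨δ, hδ⟩ := hasType_of_chain (P := (∅ : Set T)) h (by simp)
    exact ⟨⟨∅, isLowerSet_empty, δ, hδ⟩, fun P => empty_subset P.1⟩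
  · obtain ⟨δ, hδ⟩ := P.2.2
    exact ⟨δ, iio_type h P hδ⟩

theorem sig_noMono {T : Type} [PartialOrder T] {κ : Cardinal.{0}} (hκ : ℵ₀ ≤ κ)
    (hT : WideAronszajn κ T) (g : κ.ord.ToType → Sig T) : ¬ StrictMono g := by
  intro hg
  have hI : NoMaxOrder κ.ord.ToType := Cardinal.noMaxOrder hκ
  have h1 : ∀ i : κ.ord.ToType, ∃ j, i < j ∧ ∀ k, i < k → j ≤ k := by
    intro i
    obtain ⟨j, hj, hmin⟩ := WellFounded.has_min (wellFounded_lt (α := κ.ord.ToType)) (Ioi i)
      (exists_gt i)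
    exact ⟨j, hj, fun k hk => not_lt.1 (hmin k hk)⟩
  choose s hs hmin using h1
  have h2 : ∀ i : κ.ord.ToType, ∃ p : T, p ∈ (g (s i)).1 ∧ p ∉ (g i).1 := by
    intro i
    by_contra hcon
    push Not at hcon
    exact (hg (hs i)).not_ge hcon
  choose p hp hp' using h2
  refine hT.no_mono p fun i j hij => ?_
  have h3 : g (s i) ≤ g j := hg.monotone (hmin i j hij)
  have h4 : g j ≤ g (s j) := hg.monotone (hs j).le
  have h5 : p i ∈ (g j).1 := h3 (hp i)
  obtain ⟨δ, hδ⟩ := (g (s j)).2.2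
  rcases hasType_chain hδ (h4 h5) (hp j) with h6 | h6
  · exact lt_of_le_of_ne h6 fun he => hp' j (he ▸ h5)
  · exact absurd ((g j).2.1 h6 h5) (hp' j)

/-- The inflated tree of the good paths. -/
def Inf (κ : Cardinal.{0}) (T : Type) [PartialOrder T] (G : Sig T → Prop)
    (b : Sig T → κ.ord.ToType) : Type :=
  {x : Sig T ×ₗ κ.ord.ToType // G (ofLex x).1 ∧ (ofLex x).2 ≤ b (ofLex x).1}

noncomputable instance (κ : Cardinal.{0}) (T : Type) [PartialOrder T] (G : Sig T → Prop)
    (b : Sig T → κ.ord.ToType) : PartialOrder (Inf κ T G b) := Subtype.partialOrder _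

variable {T : Type} [PartialOrder T] {κ : Cardinal.{0}} {G : Sig T → Prop}
  {b : Sig T → κ.ord.ToType}

def Inf.fst (x : Inf κ T G b) : Sig T := (ofLex x.1).1

def Inf.snd (x : Inf κ T G b) : κ.ord.ToType := (ofLex x.1).2

theorem Inf.lt_iff (x y : Inf κ T G b) : x < y ↔ x.fst < y.fst ∨ x.fst = y.fst ∧ x.snd < y.snd :=
  Prod.Lex.lt_iff

theorem Inf.le_iff (x y : Inf κ T G b) : x ≤ y ↔ x.fst < y.fst ∨ x.fst = y.fst ∧ x.snd ≤ y.snd :=
  Prod.Lex.le_iff

theorem mk_Iic_lt (hκ : ℵ₀ ≤ κ) (i : κ.ord.ToType) : #(Iic i) < κ := by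
  have hI : NoMaxOrder κ.ord.ToType := Cardinal.noMaxOrder hκ
  obtain ⟨j, hj⟩ := exists_gt i
  refine (Cardinal.mk_le_mk_of_subset fun x (hx : x ≤ i) => ?_).trans_lt
    (Cardinal.mk_Iio_toType_ord_lt j)
  exact lt_of_le_of_lt hx hj

theorem Inf.fiber_lt (hκ : ℵ₀ ≤ κ) (P : Sig T) :
    #{x : Inf κ T G b | x.fst = P} < κ := by
  refine (Cardinal.mk_le_of_injective (f := fun x : {x : Inf κ T G b | x.fst = P} =>
    (⟨x.1.snd, by
      have h1 := x.1.2.2
      have h2 : (ofLex x.1.1).1 = P := x.2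
      rw [h2] at h1
      exact h1⟩ : Iic (b P))) ?_).trans_lt (mk_Iic_lt hκ (b P))
  intro x y hxy
  have h1 : x.1.snd = y.1.snd := congrArg Subtype.val hxy
  have h2 : x.1.fst = y.1.fst := (show x.1.fst = P from x.2).trans (show y.1.fst = P from y.2).symm
  refine Subtype.ext (Subtype.ext ?_)
  exact Prod.ext h2 h1

theorem sig_Iic_lt (hκ : ℵ₀ ≤ κ) (hT : WideAronszajn κ T) (P : Sig T) : #(Iic P) < κ := by
  obtain ⟨δ, hδ⟩ := P.2.2
  have h1 : #(Iio P) < κ := by
    rw [hasType_card (iio_type hT.tree P hδ), ← Cardinal.lt_ord]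
    exact hT.type_lt hδ
  have h2 : Iic P = insert P (Iio P) := (Set.Iio_insert).symm
  rw [h2]
  exact (Cardinal.mk_insert_le).trans_lt (Cardinal.add_lt_of_lt hκ h1 (one_lt_aleph0.trans_le hκ))

theorem inf_wide (hκ : κ.IsRegular) (hT : WideAronszajn κ T)
    (hG0 : ∀ P : Sig T, P.1 = ∅ → G P) (hG1 : ∀ (P : Sig T) (t : T), P.1 = Iic t → G P)
    (hc : #{P : Sig T // G P} ≤ κ) : WideAronszajn κ (Inf κ T G b) := by
  have hκ' := hκ.aleph0_le
  have hS := sig_tree hT.tree
  have hI : NoMaxOrder κ.ord.ToType := Cardinal.noMaxOrder hκ'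
  have hne : Nonempty κ.ord.ToType := by
    rw [← Cardinal.mk_ne_zero_iff, Cardinal.mk_ord_toType]
    exact (aleph0_pos.trans_le hκ').ne'
  obtain ⟨i0, -, hi0⟩ := WellFounded.has_min (wellFounded_lt (α := κ.ord.ToType))
    Set.univ univ_nonempty
  have hi0' : ∀ i, i0 ≤ i := fun i => not_lt.1 (hi0 i (mem_univ _))
  refine criterion ?_ ?_ ?_ ?_ ?_ ?_ ?_
  · obtain ⟨δ, hδ⟩ := hasType_of_chain (P := (∅ : Set T)) hT.tree (by simp)
    refine ⟨⟨toLex (⟨∅, isLowerSet_empty, δ, hδ⟩, i0), hG0 _ rfl, hi0' _⟩, fun x => ?_⟩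
    refine (Inf.le_iff _ _).2 ?_
    by_cases h1 : x.fst.1 = ∅
    · exact Or.inr ⟨Subtype.ext h1.symm, hi0' _⟩
    · exact Or.inl (lt_of_le_of_ne (empty_subset _) fun he => h1 (congrArg Subtype.val he).symm)
  · have : WellFoundedLT (Sig T) := ⟨hS.wf⟩
    exact InvImage.wf (fun a : Inf κ T G b => a.1) (wellFounded_lt (α := Sig T ×ₗ κ.ord.ToType))
  · intro x y z hx hy
    have h1 : x.fst ≤ z.fst := by
      rcases (Inf.lt_iff _ _).1 hx with h | h
      exacts [h.le, h.1.le]
    have h2 : y.fst ≤ z.fst := by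
      rcases (Inf.lt_iff _ _).1 hy with h | h
      exacts [h.le, h.1.le]
    rcases hS.chain_Iic z.fst h1 h2 with h3 | h3
    · rcases h3.lt_or_eq with h4 | h4
      · exact Or.inl ((Inf.le_iff _ _).2 (Or.inl h4))
      · rcases le_total x.snd y.snd with h5 | h5
        · exact Or.inl ((Inf.le_iff _ _).2 (Or.inr ⟨h4, h5⟩))
        · exact Or.inr ((Inf.le_iff _ _).2 (Or.inr ⟨h4.symm, h5⟩))
    · rcases h3.lt_or_eq with h4 | h4
      · exact Or.inr ((Inf.le_iff _ _).2 (Or.inl h4))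
      · rcases le_total x.snd y.snd with h5 | h5
        · exact Or.inl ((Inf.le_iff _ _).2 (Or.inr ⟨h4.symm, h5⟩))
        · exact Or.inr ((Inf.le_iff _ _).2 (Or.inr ⟨h4, h5⟩))
  · have h1 : Function.Injective (fun x : Inf κ T G b =>
        ((⟨x.fst, x.2.1⟩, x.snd) : {P : Sig T // G P} × κ.ord.ToType)) := by
      intro x y hxy
      have h2 : x.fst = y.fst := congrArg (fun z => z.1.1) hxy
      have h3 : x.snd = y.snd := congrArg (fun z => z.2) hxy
      exact Subtype.ext (Prod.ext h2 h3)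
    refine (Cardinal.mk_le_of_injective h1).trans ?_
    rw [Cardinal.mk_prod, Cardinal.lift_id, Cardinal.lift_id, Cardinal.mk_ord_toType]
    exact (mul_le_mul' hc le_rfl).trans (Cardinal.mul_eq_self hκ').le
  · intro x
    have h1 : #(⋃ Q : Iic x.fst, {y : Inf κ T G b | y.fst = Q}) < κ :=
      (Cardinal.card_iUnion_lt_iff_forall_of_isRegular hκ (sig_Iic_lt hκ' hT x.fst)).2
        fun Q => Inf.fiber_lt hκ' _
    refine (Cardinal.mk_le_mk_of_subset fun y hy => ?_).trans_lt h1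
    have h2 : y.fst ≤ x.fst := by
      rcases (Inf.lt_iff _ _).1 hy with h | h
      exacts [h.le, h.1.le]
    exact mem_iUnion.2 ⟨⟨y.fst, h2⟩, rfl⟩
  · intro i
    obtain ⟨t, ⟨e⟩⟩ := hT.height _ (by
      have := Ordinal.typein_lt_type (fun a b : κ.ord.ToType => a < b) i
      rwa [Ordinal.type_toType] at this)
    obtain ⟨e'⟩ := hasType_typein i
    have hp : ∀ s : T, ∃ P : Sig T, P.1 = Iic s := fun s =>
      ⟨⟨Iic s, isLowerSet_Iic s, hasType_of_chain hT.tree fun x hx y hy =>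
        hT.tree.chain_Iic s hx hy⟩, rfl⟩
    choose p hp using hp
    have hpm : ∀ s s' : T, s < s' → p s < p s' := by
      intro s s' h
      refine lt_of_le_of_ne ?_ fun he => ?_
      · show (p s).1 ⊆ (p s').1
        rw [hp, hp]
        exact Iic_subset_Iic.2 h.le
      · have h1 : (p s).1 = (p s').1 := congrArg Subtype.val he
        rw [hp, hp] at h1
        have h2 : s' ∈ Iic s := by rw [h1]; exact le_rfl
        exact absurd h (not_lt_of_ge h2)
    refine ⟨⟨toLex (p t, i0), hG1 _ t (hp t), hi0' _⟩, fun j =>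
      ⟨⟨toLex (p (e.symm (e' j)).1, i0), hG1 _ _ (hp _), hi0' _⟩, ?_⟩, ?_⟩
    · exact (Inf.lt_iff _ _).2 (Or.inl (hpm _ _ (e.symm (e' j)).2))
    · intro j k hjk
      exact (Inf.lt_iff _ _).2 (Or.inl (hpm _ _ (e.symm.lt_iff_lt.2 (e'.lt_iff_lt.2 hjk))))
  · intro g hg
    have hmono : ∀ j k, j ≤ k → (g j).fst ≤ (g k).fst := by
      intro j k hjk
      rcases (Inf.le_iff _ _).1 (hg.monotone hjk) with h | h
      exacts [h.le, h.1.le]
    obtain ⟨δ, hδ⟩ := hasType_of_chain (P := range fun j => (g j).fst) hS (by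
      rintro _ ⟨j, rfl⟩ _ ⟨k, rfl⟩
      rcases le_total j k with h | h
      · exact Or.inl (hmono _ _ h)
      · exact Or.inr (hmono _ _ h))
    rcases lt_or_ge δ κ.ord with h1 | h1
    · have h2 : #(range fun j => (g j).fst) < κ := by
        rw [hasType_card hδ, ← Cardinal.lt_ord]
        exact h1
      have h3 : #(⋃ Q : range (fun j => (g j).fst), {j | (g j).fst = Q}) < κ := by
        refine (Cardinal.card_iUnion_lt_iff_forall_of_isRegular hκ h2).2 fun Q => ?_
        refine (Cardinal.mk_le_of_injective (f := fun j : {j | (g j).fst = Q} =>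
          (⟨g j.1, j.2⟩ : {x : Inf κ T G b | x.fst = Q})) ?_).trans_lt (Inf.fiber_lt hκ' _)
        intro j k hjk
        exact Subtype.ext (hg.injective (congrArg Subtype.val hjk))
      have h4 : (⋃ Q : range (fun j => (g j).fst), {j | (g j).fst = Q}) = Set.univ :=
        eq_univ_of_forall fun j => mem_iUnion.2 ⟨⟨_, j, rfl⟩, rfl⟩
      rw [h4, Cardinal.mk_univ, Cardinal.mk_ord_toType] at h3
      exact lt_irrefl _ h3
    · obtain ⟨e⟩ := hδ
      have h2 : Ordinal.type (fun a b : κ.ord.ToType => a < b) ≤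
          Ordinal.type (fun a b : δ.ToType => a < b) := by
        rwa [Ordinal.type_toType, Ordinal.type_toType]
      obtain ⟨u⟩ := Ordinal.type_le_iff'.1 h2
      exact sig_noMono hκ' hT (fun i => (e.symm (u i)).1) fun i j hij =>
        e.symm.lt_iff_lt.2 (u.map_rel_iff.2 hij)

/-- The paths with a maximum, the empty path, and the paths whose length is a limit in `C`. -/
def Good (C : Set Ordinal.{0}) (P : Sig T) : Prop :=
  P.1 = ∅ ∨ (∃ t, P.1 = Iic t) ∨ ∃ δ ∈ C, Order.IsSuccLimit δ ∧ HasType P.1 δ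

/-- Kurepa's recursion along the good paths. -/
theorem good_mono (hT : WideAronszajn κ T) {C : Set Ordinal.{0}}
    (hcl : ∀ δ < κ.ord, Order.IsSuccLimit δ → (∀ α < δ, ∃ γ ∈ C, α < γ ∧ γ < δ) → δ ∈ C)
    (hb : ∀ (P : Sig T) (δ : Ordinal.{0}), HasType P.1 δ →
      Ordinal.typein (fun a b : κ.ord.ToType => a < b) (b P) ∈ C ∧
        δ < Ordinal.typein (fun a b : κ.ord.ToType => a < b) (b P))
    (F : ∀ P : Sig T, Good C P → T)
    (hF : ∀ P Q hP hQ, P < Q → F P hP < F Q hQ)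
    (hF2 : ∀ P hP (β : Ordinal.{0}), HasType (Iio (F P hP)) β →
      Ordinal.typein (fun a b : κ.ord.ToType => a < b) (b P) ≤ β)
    (I : Type) [LinearOrder I] [WellFoundedLT I] : ∃ t : I → T, StrictMono t := by
  classical
  have h := hT.tree
  obtain ⟨d, -⟩ := h.least
  let t : I → T := WellFounded.fix (wellFounded_lt (α := I)) (fun i g =>
    if hP : ∃ hP : IsLowerSet {s : T | ∃ (j : I) (hj : j < i), s ≤ g j hj} ∧
      ∃ δ : Ordinal.{0}, HasType {s : T | ∃ (j : I) (hj : j < i), s ≤ g j hj} δ, 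
      Good C ⟨_, hP⟩ then
    F ⟨_, hP.choose⟩ hP.choose_spec else d)
  have ht : ∀ i, t i = if hP : ∃ hP : IsLowerSet {s : T | ∃ (j : I) (_ : j < i), s ≤ t j} ∧
      ∃ δ : Ordinal.{0}, HasType {s : T | ∃ (j : I) (_ : j < i), s ≤ t j} δ, Good C ⟨_, hP⟩ then
    F ⟨_, hP.choose⟩ hP.choose_spec else d := fun i => WellFounded.fix_eq _ _ i
  have key : ∀ i, (∃ (hP : IsLowerSet {s : T | ∃ (j : I) (_ : j < i), s ≤ t j} ∧
      ∃ δ : Ordinal.{0}, HasType {s : T | ∃ (j : I) (_ : j < i), s ≤ t j} δ) (hG : Good C ⟨_, hP⟩),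
      t i = F ⟨_, hP⟩ hG) ∧ ∀ j < i, t j < t i := by
    intro i
    induction i using WellFoundedLT.induction with
    | ind i ih =>
      have hmono : ∀ j k, j < k → k < i → t j < t k := fun j k hjk hk => (ih k hk).2 j hjk
      have hlow : IsLowerSet {s : T | ∃ (j : I) (_ : j < i), s ≤ t j} := by
        rintro a b hba ⟨j, hj, hs⟩
        exact ⟨j, hj, hba.trans hs⟩
      have hP : IsLowerSet {s : T | ∃ (j : I) (_ : j < i), s ≤ t j} ∧
          ∃ δ : Ordinal.{0}, HasType {s : T | ∃ (j : I) (_ : j < i), s ≤ t j} δ := by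
        refine ⟨hlow, hasType_of_chain h ?_⟩
        rintro x ⟨j, hj, hx⟩ y ⟨k, hk, hy⟩
        rcases lt_trichotomy j k with hjk | hjk | hjk
        · exact h.chain_Iic (t k) (hx.trans (hmono j k hjk hk).le) hy
        · subst hjk
          exact h.chain_Iic (t j) hx hy
        · exact h.chain_Iic (t j) hx (hy.trans (hmono k j hjk hj).le)
      have hG : Good C ⟨_, hP⟩ := by
        by_cases hn : ∃ j, j < i
        · by_cases hm : ∃ j, j < i ∧ ∀ k, k < i → k ≤ j
          · obtain ⟨j, hj, hjm⟩ := hm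
            refine Or.inr (Or.inl ⟨t j, ?_⟩)
            ext s
            constructor
            · rintro ⟨k, hk, hs⟩
              rcases (hjm k hk).lt_or_eq with h1 | h1
              · exact hs.trans (hmono k j h1 hj).le
              · exact h1 ▸ hs
            · intro hs
              exact ⟨j, hj, hs⟩
          · obtain ⟨δ, hδ⟩ := hP.2
            have hbet : ∀ α < δ, ∃ γ ∈ C, α < γ ∧ γ < δ := by
              intro α hα
              obtain ⟨s, ⟨j, hj, hs⟩, hsα⟩ := exists_height hlow hδ hα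
              push Not at hm
              obtain ⟨k, hk, hjk⟩ := hm j hj
              obtain ⟨⟨hPk, hGk, htk⟩, -⟩ := ih k hk
              obtain ⟨δ', hδ'⟩ := hPk.2
              have h1 : α < δ' := height_lt hPk.1 hδ' ⟨j, hjk, hs⟩ hsα
              obtain ⟨h2, h3⟩ := hb ⟨_, hPk⟩ δ' hδ'
              obtain ⟨β, hβ⟩ := h.wo (F ⟨_, hPk⟩ hGk)
              have h4 := hF2 _ hGk β hβ
              rw [← htk] at hβ
              have h5 : β < δ := height_lt hlow hδ ⟨k, hk, le_rfl⟩ hβ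
              exact ⟨_, h2, h1.trans h3, h4.trans_lt h5⟩
            have hδκ : δ < κ.ord := hT.type_lt hδ
            have hδ0 : δ ≠ 0 := by
              rintro rfl
              obtain ⟨j, hj⟩ := hn
              obtain ⟨e⟩ := hδ
              exact (isEmpty_iff.1 (inferInstance : IsEmpty (0 : Ordinal.{0}).ToType))
                (e ⟨t j, j, hj, le_rfl⟩)
            have hlim : Order.IsSuccLimit δ := by
              refine ⟨by rw [isMin_iff_eq_bot]; exact hδ0, fun α hα => ?_⟩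
              obtain ⟨γ, -, h1, h2⟩ := hbet α hα.lt
              exact hα.2 h1 h2
            exact Or.inr (Or.inr ⟨δ, hcl δ hδκ hlim hbet, hlim, hδ⟩)
        · refine Or.inl ?_
          rw [Set.eq_empty_iff_forall_notMem]
          rintro s ⟨j, hj, -⟩
          exact hn ⟨j, hj⟩
      have hti : t i = F ⟨_, hP⟩ hG := by rw [ht i, dif_pos ⟨hP, hG⟩]
      refine ⟨⟨hP, hG, hti⟩, fun j hj => ?_⟩
      obtain ⟨⟨hPj, hGj, htj⟩, hj2⟩ := ih j hj
      rw [hti]
      conv_lhs => rw [htj]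
      refine hF _ _ _ _ (lt_of_le_of_ne ?_ fun he => ?_)
      · rintro s ⟨k, hk, hs⟩
        exact ⟨k, hk.trans hj, hs⟩
      · have h1 : t j ∈ {s : T | ∃ (k : I) (_ : k < i), s ≤ t k} := ⟨j, hj, le_rfl⟩
        have h2 : {s : T | ∃ (k : I) (_ : k < j), s ≤ t k} =
            {s : T | ∃ (k : I) (_ : k < i), s ≤ t k} := congrArg Subtype.val he
        rw [← h2] at h1
        obtain ⟨k, hk, hs⟩ := h1
        exact absurd (hj2 k hk) (not_lt_of_ge hs)
  exact ⟨t, fun i j hij => (key j).2 i hij⟩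

/-- The number of paths of length `δ` and the cofinality of `δ`. -/
theorem paths_le_cof {δ : Ordinal.{0}} : #(Paths T δ) ≤ #T ^ δ.cof := by
  classical
  obtain ⟨s, hs, hs'⟩ := Order.exists_cof_eq δ.ToType
  have h1 : ∀ P : Paths T δ, ∃ f : s → T, {x | ∃ c, x ≤ f c} = P.1 := by
    rintro ⟨P, hlow, ⟨e⟩⟩
    refine ⟨fun c => (e.symm c.1 : P), ?_⟩
    ext x
    constructor
    · rintro ⟨c, hc⟩
      exact hlow hc (e.symm c.1).2
    · intro hx
      obtain ⟨c, hc, hxc⟩ := hs (e ⟨x, hx⟩)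
      refine ⟨⟨c, hc⟩, ?_⟩
      have h2 : (⟨x, hx⟩ : P) ≤ e.symm c := by
        rw [← e.le_iff_le, e.apply_symm_apply]
        exact hxc
      exact h2
  choose f hf using h1
  have h2 : Function.Injective f := fun P Q h => Subtype.ext (by rw [← hf P, ← hf Q, h])
  have h3 := Cardinal.mk_le_of_injective h2
  rw [← Cardinal.power_def, hs', ← Ordinal.cof_type, Ordinal.type_toType] at h3
  exact h3

/-- If there are more than `#T` paths of length `δ`, so many of them are maximal. -/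
theorem lt_maxBranches (h : IsTree T) (hκ : ℵ₀ ≤ #T) {δ : Ordinal.{0}} (hlt : #T < #(Paths T δ)) :
    #T < #(MaxBranches T δ) := by
  classical
  by_contra hcon
  rw [not_lt] at hcon
  have h1 : Paths T δ ⊆ MaxBranches T δ ∪ range (fun t : T => Iio t) := by
    rintro P ⟨hlow, hP⟩
    by_cases hb : ∃ t : T, ∀ s ∈ P, s < t
    · refine Or.inr ?_
      obtain ⟨t, ht, hmin⟩ := WellFounded.has_min h.wf {t : T | ∀ s ∈ P, s < t} hb
      refine ⟨t, ?_⟩
      ext x
      constructor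
      · intro hx
        by_contra hxP
        refine hmin x (fun s hs => ?_) hx
        rcases h.chain_Iic t (le_of_lt hx) (ht s hs).le with h2 | h2
        · exact absurd (hlow h2 hs) hxP
        · exact lt_of_le_of_ne h2 fun he => hxP (he ▸ hs)
      · intro hx
        exact ht x hx
    · exact Or.inl ⟨hlow, hP, hb⟩
  refine absurd ((Cardinal.mk_le_mk_of_subset h1).trans ((Cardinal.mk_union_le _ _).trans
    (Cardinal.add_le_of_le hκ hcon Cardinal.mk_range_le))) (not_le.2 hlt)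

/-- Stationarily many lengths with more than `κ` paths. -/
theorem stationary (hκ : κ.IsRegular) (hT : WeaklyMaximal κ T) (C : Set Ordinal.{0})
    (hunb : ∀ α < κ.ord, ∃ γ ∈ C, α < γ ∧ γ < κ.ord)
    (hcl : ∀ δ < κ.ord, Order.IsSuccLimit δ → (∀ α < δ, ∃ γ ∈ C, α < γ ∧ γ < δ) → δ ∈ C) :
    ∃ δ ∈ C, Order.IsSuccLimit δ ∧ δ < κ.ord ∧ κ < #(Paths T δ) := by
  classical
  by_contra hcon
  push Not at hcon
  have hκ' := hκ.aleph0_le
  have hb : ∀ P : Sig T, ∃ i : κ.ord.ToType, ∀ δ : Ordinal.{0}, HasType P.1 δ →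
      Ordinal.typein (fun a b : κ.ord.ToType => a < b) i ∈ C ∧
        δ < Ordinal.typein (fun a b : κ.ord.ToType => a < b) i := by
    intro P
    obtain ⟨δ, hδ⟩ := P.2.2
    obtain ⟨γ, hγ, h1, h2⟩ := hunb δ (hT.1.type_lt hδ)
    rw [← Ordinal.type_toType κ.ord] at h2
    refine ⟨Ordinal.enum (fun a b : κ.ord.ToType => a < b) ⟨γ, h2⟩, fun δ' hδ' => ?_⟩
    rw [Ordinal.typein_enum, hasType_unique hδ' hδ]
    exact ⟨hγ, h1⟩
  choose b hb using hb
  have hc : #{P : Sig T // Good C P} ≤ κ := by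
    let U : Set (Set T) := {∅} ∪ range (fun t : T => Iic t) ∪ ⋃ i : κ.ord.ToType,
      {P | Ordinal.typein (fun a b : κ.ord.ToType => a < b) i ∈ C ∧
        Order.IsSuccLimit (Ordinal.typein (fun a b : κ.ord.ToType => a < b) i) ∧
        P ∈ Paths T (Ordinal.typein (fun a b : κ.ord.ToType => a < b) i)}
    have hU : ∀ P : {P : Sig T // Good C P}, P.1.1 ∈ U := by
      rintro ⟨⟨P, hlow, -⟩, h1 | ⟨t, h1⟩ | ⟨δ, h1, h2, h3⟩⟩
      · exact Or.inl (Or.inl h1)
      · exact Or.inl (Or.inr ⟨t, h1.symm⟩)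
      · refine Or.inr (mem_iUnion.2 ?_)
        have h4 := hT.1.type_lt h3
        rw [← Ordinal.type_toType κ.ord] at h4
        refine ⟨Ordinal.enum (fun a b : κ.ord.ToType => a < b) ⟨δ, h4⟩, ?_⟩
        rw [Set.mem_ofPred_eq, Ordinal.typein_enum]
        exact ⟨h1, h2, hlow, h3⟩
    have hg : Function.Injective (fun P : {P : Sig T // Good C P} => (⟨P.1.1, hU P⟩ : U)) :=
      fun P Q h => Subtype.ext (Subtype.ext (congrArg (fun x : U => x.1) h))
    refine (Cardinal.mk_le_of_injective hg).trans ?_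
    have h1 : #({∅} ∪ range (fun t : T => Iic t) : Set (Set T)) ≤ κ := by
      refine (Cardinal.mk_union_le _ _).trans (Cardinal.add_le_of_le hκ' ?_ ?_)
      · rw [Cardinal.mk_singleton]
        exact one_le_aleph0.trans hκ'
      · exact Cardinal.mk_range_le.trans_eq hT.1.card
    have h2 : #(⋃ i : κ.ord.ToType,
      {P | Ordinal.typein (fun a b : κ.ord.ToType => a < b) i ∈ C ∧
        Order.IsSuccLimit (Ordinal.typein (fun a b : κ.ord.ToType => a < b) i) ∧
        P ∈ Paths T (Ordinal.typein (fun a b : κ.ord.ToType => a < b) i)} : Set (Set T)) ≤ κ := by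
      refine (Cardinal.mk_iUnion_le_sum_mk).trans ((Cardinal.sum_le_mk_mul_iSup _).trans ?_)
      rw [Cardinal.mk_ord_toType]
      refine (mul_le_mul' le_rfl (ciSup_le' fun i => ?_)).trans (Cardinal.mul_eq_self hκ').le
      by_cases h3 : Ordinal.typein (fun a b : κ.ord.ToType => a < b) i ∈ C ∧
        Order.IsSuccLimit (Ordinal.typein (fun a b : κ.ord.ToType => a < b) i)
      · refine (Cardinal.mk_le_mk_of_subset fun P hP => hP.2.2).trans (hcon _ h3.1 h3.2 ?_)
        have := Ordinal.typein_lt_type (fun a b : κ.ord.ToType => a < b) i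
        rwa [Ordinal.type_toType] at this
      · have h4 : {P : Set T | Ordinal.typein (fun a b : κ.ord.ToType => a < b) i ∈ C ∧
          Order.IsSuccLimit (Ordinal.typein (fun a b : κ.ord.ToType => a < b) i) ∧
          P ∈ Paths T (Ordinal.typein (fun a b : κ.ord.ToType => a < b) i)} = ∅ := by
          rw [Set.eq_empty_iff_forall_notMem]
          exact fun P hP => h3 ⟨hP.1, hP.2.1⟩
        rw [h4, Cardinal.mk_eq_zero]
        exact bot_le
    exact (Cardinal.mk_union_le _ _).trans (Cardinal.add_le_of_le hκ' h1 h2)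
  obtain ⟨f, hf⟩ := hT.2 (Inf κ T (Good C) b) (inf_wide hκ hT.1 (fun P hP => Or.inl hP)
    (fun P t hP => Or.inr (Or.inl ⟨t, hP⟩)) hc)
  obtain ⟨t, ht⟩ := good_mono (b := b) hT.1 hcl hb
    (fun P hP => f ⟨toLex (P, b P), hP, le_rfl⟩)
    (fun P Q hP hQ hPQ => hf ((Inf.lt_iff _ _).2 (Or.inl hPQ)))
    (fun P hP β hβ => hasType_le (hasType_typein (b P)) hβ
      (fun i => ⟨f ⟨toLex (P, i), hP, le_of_lt i.2⟩,
        hf ((Inf.lt_iff _ _).2 (Or.inr ⟨rfl, i.2⟩))⟩)
      fun i j hij => hf ((Inf.lt_iff _ _).2 (Or.inr ⟨rfl, hij⟩)))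
    κ.ord.ToType
  exact hT.1.no_mono t ht

end Pool.Agent.Lib_helper70.WAT
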